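import Pool.Agent.Helper73.SM.Goals

set_option autoImplicit false

namespace Pool.Agent.Helper1.SM

open Finset

lemma mult_image (N k : ℕ) (hk : 1 ≤ k) :
    (Icc 1 N).filter (fun n => k ∣ n) = (Icc 1 (N / k)).image (fun m => k * m) := by
  ext n
  simp only [mem_filter, mem_Icc, mem_image]
  constructor
  · rintro ⟨⟨h1, h2⟩, m, rfl⟩
    refine ⟨m, ⟨?_, ?_⟩, rfl⟩
    · rcases Nat.eq_zero_or_pos m with h | h
      · subst h; simp at h1
      · exact h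
    · rw [Nat.le_div_iff_mul_le (by omega)]
      rw [mul_comm]; exact h2
  · rintro ⟨m, ⟨h1, h2⟩, rfl⟩
    rw [Nat.le_div_iff_mul_le (by omega)] at h2
    refine ⟨⟨?_, ?_⟩, Dvd.intro m rfl⟩
    · exact Nat.mul_pos hk h1
    · rw [mul_comm]; exact h2

lemma sum_mult (N k : ℕ) (hk : 1 ≤ k) (f : ℕ → ℝ) :
    ∑ n ∈ (Icc 1 N).filter (fun n => k ∣ n), f n = ∑ m ∈ Icc 1 (N / k), f (k * m) := by
  rw [mult_image N k hk, sum_image]
  intro a _ b _ hab
  exact Nat.eq_of_mul_eq_mul_left (by omega) hab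

lemma swap (N : ℕ) (K : ℝ) (f : ℕ → ℕ → ℝ) :
    ∑ n ∈ Icc 1 N, ∑ k ∈ n.divisors.filter (fun k : ℕ => (k : ℝ) ≤ K), f n k
    = ∑ k ∈ (Icc 1 N).filter (fun k : ℕ => (k : ℝ) ≤ K),
        ∑ n ∈ (Icc 1 N).filter (fun n => k ∣ n), f n k := by
  apply sum_comm'
  intro n k
  simp only [mem_filter, mem_Icc, Nat.mem_divisors]
  constructor
  · rintro ⟨⟨h1, h2⟩, ⟨h3, h4⟩, h5⟩
    have := Nat.le_of_dvd (by omega) h3
    have := Nat.pos_of_dvd_of_pos h3 (by omega)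
    exact ⟨⟨⟨h1, h2⟩, h3⟩, ⟨by omega, by omega⟩, h5⟩
  · rintro ⟨⟨⟨h1, h2⟩, h3⟩, ⟨h4, h5⟩, h6⟩
    exact ⟨⟨h1, h2⟩, ⟨h3, by omega⟩, h6⟩

lemma inv_sq_sum' (n : ℕ) : ∑ k ∈ Icc 1 (n + 1), 1 / (k : ℝ) ^ 2 ≤ 2 - 1 / ((n : ℝ) + 1) := by
  induction n with
  | zero => norm_num
  | succ n ih =>
    rw [sum_Icc_succ_top (by omega)]
    have h1 : (0 : ℝ) < (n : ℝ) + 1 := by positivity
    have h2 : (0 : ℝ) < (n : ℝ) + 1 + 1 := by positivity
    push_cast
    have h3 : 1 / ((n : ℝ) + 1 + 1) ^ 2 ≤ 1 / ((n : ℝ) + 1) - 1 / ((n : ℝ) + 1 + 1) := by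
      rw [div_sub_div _ _ h1.ne' h2.ne', div_le_div_iff₀ (by positivity) (by positivity)]
      nlinarith
    linarith

lemma inv_sq_sum (N : ℕ) : ∑ k ∈ Icc 1 N, 1 / (k : ℝ) ^ 2 ≤ 2 := by
  rcases N with _ | n
  · simp
  · have := inv_sq_sum' n
    have h1 : (0 : ℝ) < 1 / ((n : ℝ) + 1) := by positivity
    linarith

lemma harm (N : ℕ) : ∑ m ∈ Icc 1 N, 1 / (m : ℝ) ≤ 1 + Real.log (1 + N) := by
  have h := harmonic_le_one_add_log N
  rw [harmonic_eq_sum_Icc] at h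
  push_cast at h
  have h2 : ∑ m ∈ Icc 1 N, 1 / (m : ℝ) = ∑ m ∈ Icc 1 N, ((m : ℝ))⁻¹ := by
    simp only [one_div]
  rw [h2]
  refine h.trans ?_
  rcases N with _ | n
  · simp
  · gcongr
    push_cast
    linarith

theorem goalSUM : Pool.Agent.Helper73.SM.StmtSUM := by
  intro Y K lam hY hK hlam
  set N := ⌊Y⌋₊ with hN
  have hNY : (N : ℝ) ≤ Y := Nat.floor_le hY
  have hl0 : 0 ≤ Real.log (1 + Y) := Real.log_nonneg (by linarith)
  rw [swap N K (fun n k => 2 * (k : ℝ) / n + 1152 * lam / k)]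
  -- inner sums
  have inner : ∀ k ∈ (Icc 1 N).filter (fun k : ℕ => (k : ℝ) ≤ K),
      ∑ n ∈ (Icc 1 N).filter (fun n => k ∣ n), (2 * (k : ℝ) / n + 1152 * lam / k)
      ≤ 2 * (1 + Real.log (1 + Y)) + 1152 * lam * Y * (1 / (k : ℝ) ^ 2) := by
    intro k hk
    simp only [mem_filter, mem_Icc] at hk
    obtain ⟨⟨hk1, hk2⟩, hk3⟩ := hk
    have hkr : (0 : ℝ) < k := by exact_mod_cast hk1
    rw [sum_mult N k hk1, sum_add_distrib]
    apply add_le_add
    · have e : ∑ m ∈ Icc 1 (N / k), 2 * (k : ℝ) / ((k * m : ℕ) : ℝ)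
          = 2 * ∑ m ∈ Icc 1 (N / k), 1 / (m : ℝ) := by
        rw [mul_sum]
        refine sum_congr rfl fun m hm => ?_
        have : (0 : ℝ) < m := by
          have := (mem_Icc.1 hm).1
          exact_mod_cast this
        push_cast
        field_simp
      rw [e]
      have h1 := harm (N / k)
      have h2 : ((N / k : ℕ) : ℝ) ≤ Y := by
        have : ((N / k : ℕ) : ℝ) ≤ N := by exact_mod_cast Nat.div_le_self N k
        linarith
      have h3 : Real.log (1 + ((N / k : ℕ) : ℝ)) ≤ Real.log (1 + Y) := by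
        apply Real.log_le_log (by positivity)
        linarith
      linarith
    · rw [sum_const, Nat.card_Icc, Nat.add_sub_cancel, nsmul_eq_mul]
      have h2 : ((N / k : ℕ) : ℝ) ≤ Y / k := by
        refine (Nat.cast_div_le).trans ?_
        gcongr
      have h3 : 0 ≤ 1152 * lam / (k : ℝ) := by positivity
      calc ((N / k : ℕ) : ℝ) * (1152 * lam / k) ≤ Y / k * (1152 * lam / k) :=
            mul_le_mul_of_nonneg_right h2 h3
        _ = 1152 * lam * Y * (1 / (k : ℝ) ^ 2) := by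
            field_simp
  refine (sum_le_sum inner).trans ?_
  rw [sum_add_distrib]
  apply add_le_add
  · rw [sum_const, nsmul_eq_mul]
    have hc : (((Icc 1 N).filter (fun k : ℕ => (k : ℝ) ≤ K)).card : ℝ) ≤ K := by
      have h1 : (Icc 1 N).filter (fun k : ℕ => (k : ℝ) ≤ K) ⊆ Icc 1 ⌊K⌋₊ := by
        intro k hk
        simp only [mem_filter, mem_Icc] at hk
        rw [mem_Icc]
        exact ⟨hk.1.1, Nat.le_floor hk.2⟩
      have h2 := card_le_card h1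
      rw [Nat.card_Icc, Nat.add_sub_cancel] at h2
      calc (((Icc 1 N).filter (fun k : ℕ => (k : ℝ) ≤ K)).card : ℝ) ≤ (⌊K⌋₊ : ℝ) := by
            exact_mod_cast h2
        _ ≤ K := Nat.floor_le (by linarith)
    have h0 : 0 ≤ 2 * (1 + Real.log (1 + Y)) := by linarith
    calc (((Icc 1 N).filter (fun k : ℕ => (k : ℝ) ≤ K)).card : ℝ) * (2 * (1 + Real.log (1 + Y)))
        ≤ K * (2 * (1 + Real.log (1 + Y))) := mul_le_mul_of_nonneg_right hc h0
      _ = 2 * K * (1 + Real.log (1 + Y)) := by ring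
  · rw [← mul_sum]
    have h1 : ∑ k ∈ (Icc 1 N).filter (fun k : ℕ => (k : ℝ) ≤ K), 1 / (k : ℝ) ^ 2 ≤ 2 := by
      refine le_trans ?_ (inv_sq_sum N)
      apply sum_le_sum_of_subset_of_nonneg (filter_subset _ _)
      intro i _ _
      positivity
    have h0 : 0 ≤ 1152 * lam * Y := by positivity
    calc 1152 * lam * Y * ∑ k ∈ (Icc 1 N).filter (fun k : ℕ => (k : ℝ) ≤ K), 1 / (k : ℝ) ^ 2
        ≤ 1152 * lam * Y * 2 := mul_le_mul_of_nonneg_left h1 h0
      _ = 2304 * lam * Y := by ring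

end Pool.Agent.Helper1.SM
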